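import Pool.Agent.TH133.Defs
import Pool.Agent.Run7.h460.BB.Defs

set_option autoImplicit false

/-!
# Filtrations with the Abel-Jacobi kernel in the second step: criteria for one variety
-/

open CategoryTheory AlgebraicGeometry

universe v

namespace Pool.Agent.Run7.h570.AJ

open Pool.Agent.H914 Pool.Agent.H914.VarClass Pool.Agent.H914.VarClass.Obj
open Pool.Agent.W492.BB hiding IsBB
open _root_.Run7.h460.BB (AJData HomTriv)

variable {𝒱 : VarClass ℂ}

section Weil

variable {C : TheoryData.{0, v, 0} 𝒱 ℚ} {H : WeilTheoryData.{0, v, 0} C ℚ} (J : AJData H)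

variable (H) in
/-- Grothendieck's Künneth standard conjecture for the variety `X`. -/
def Kunneth (X : 𝒱.Obj) : Prop :=
  ∀ m : ℕ, ∃ π : C.A (X.prod X), C.Deg X.dim π ∧ ∀ (l : ℤ) (a : H.A X),
    H.Deg l a → H.act (H.cl π) a = if l = m then a else 0

/-- The filtration of the Chow groups of the single variety `P` has the properties 1 and 2 of a
Bloch-Beilinson filtration, and every self-correspondence `ε` of degree zero of `P` acting as zero on
`H^(2i-n)(P)` maps `F^n CH^i(P)` to `F^(n+1) CH^i(P)`. Nothing is required about other varieties and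
other correspondences. -/
structure IsLocal (P : 𝒱.Obj) (F : Filtration C) : Prop where
  zero : ∀ (i : ℕ) (x : C.A P), F.Mem i 0 x ↔ C.Deg i x
  one : ∀ (i : ℕ) (x : C.A P), F.Mem i 1 x ↔ HomTriv H i x
  two : ∀ (i : ℕ) (x : C.A P), F.Mem i 2 x ↔ J.Ker i x
  top : ∀ (i : ℕ) (x : C.A P), F.Mem i (i + 1) x → x = 0
  shift : ∀ (i n : ℕ) (ε : C.A (P.prod P)), C.Deg P.dim ε → Kills H ε (2 * i - n) →
    ∀ x, F.Mem i n x → F.Mem i (n + 1) (C.act ε x)

/-- `chain γ i n x = (γ (2i-n-1))_* ⋯ (γ (2i-3))_* (γ (2i-2))_* x`, a composition of `n`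
self-correspondences. -/
noncomputable def chain {P : 𝒱.Obj} (γ : ℕ → C.A (P.prod P)) (i : ℕ) : ℕ → C.A P → C.A P
  | 0, x => x
  | n + 1, x => C.act (γ (2 * i - 2 - n)) (chain γ i n x)

/-- `I_i ⋯ I_(2i-3) I_(2i-2) ker AJ = 0` for all `i`, where `ker AJ ⊆ CH^i(P)`, and `I_m` is the ideal
of the self-correspondences of degree zero of `P` which act as zero on `H^m(P)`. -/
def ChainZero (P : 𝒱.Obj) : Prop :=
  ∀ (i : ℕ) (γ : ℕ → C.A (P.prod P)),
    (∀ m, i ≤ m → m ≤ 2 * i - 2 → C.Deg P.dim (γ m) ∧ Kills H (γ m) m) →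
    ∀ x : C.A P, J.Ker i x → chain γ i (i - 1) x = 0

variable (H) in
/-- The self-correspondence `ε` of degree zero of `P` acts as zero on `H^m(P)` for
`i ≤ m ≤ 2 i - 2`. -/
def IsPhantom {P : 𝒱.Obj} (i : ℕ) (ε : C.A (P.prod P)) : Prop :=
  C.Deg P.dim ε ∧ ∀ m : ℤ, i ≤ m → m ≤ 2 * i - 2 → Kills H ε m

/-- Single phantoms are locally nilpotent on the kernel of the Abel-Jacobi map. -/
def LocNil (P : 𝒱.Obj) : Prop :=
  ∀ (i : ℕ) (ε : C.A (P.prod P)), IsPhantom H i ε → ∀ x : C.A P, J.Ker i x →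
    ∃ n : ℕ, (C.act ε)^[n] x = 0

/-- The power `ε^(i-1)` of a phantom acts as zero on the kernel of the Abel-Jacobi map. -/
def PowZero (P : 𝒱.Obj) : Prop :=
  ∀ (i : ℕ) (ε : C.A (P.prod P)), IsPhantom H i ε → ∀ x : C.A P, J.Ker i x →
    (C.act ε)^[i - 1] x = 0

end Weil

end Pool.Agent.Run7.h570.AJ
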