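import Pool.Agent.Run7.h570.AJ.Defs
import Pool.Agent.Run7.h570.BBN.Tri
import Pool.Agent.Run7.h460.BB.Main

set_option autoImplicit false
set_option linter.unusedSectionVars false

/-!
# Filtrations with the Abel-Jacobi kernel in the second step: the criterion
-/

open CategoryTheory AlgebraicGeometry

universe v

namespace Pool.Agent.Run7.h570.AJ

open Pool.Agent.H914 Pool.Agent.H914.VarClass Pool.Agent.H914.VarClass.Obj
open Pool.Agent.W492.BB hiding IsBB
open Pool.Agent.W550.Corr Pool.Agent.TH133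
open _root_.Run7.h460.BB (AJData IsAJ HomTriv ker_act hom_shift hom_zero kerS deg_cast)
open Pool.Agent.Run7.h570.BBN (Dominates exists_lift push_pull_dom Nil IdemZero exists_CK nil_iff
  fil mem_fil fil_bounded fil_corr sum_act act_pi_zero act_iter comp_iter iter_idem)

variable {𝒱 : VarClass ℂ} {C : TheoryData.{0, v, 0} 𝒱 ℚ} {H : WeilTheoryData.{0, v, 0} C ℚ}
  [hC : IsChowProj C] [hH : IsWeilProj H] {J : AJData H} [hJ : IsAJ J] {X Y Z P : 𝒱.Obj}

include hC hH in
/-- The Künneth conjecture is inherited by dominated varieties. -/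
lemma Kunneth.dom (hP : Kunneth H P) (h : Dominates C P X) : Kunneth H X := by
  obtain ⟨f, c, hc, h1⟩ := h
  have h1' : C.push f c = 1 := h1
  intro m
  obtain ⟨π, hπ, hact⟩ := hP m
  refine ⟨C.comp (C.comp (C.cograph f) π) (C.comp (C.mulCorr c) (C.graph f)), ?_, ?_⟩
  · have h1 : C.mulCorr c ∈ C.gr (P.prod P) (P.dim + (P.dim - X.dim)) := by
      have h := C.push_mem (Obj.lift (𝟙 P) (𝟙 P)) hc
      have e1 : ((P.dim : ℤ) - X.dim) + 1 * (((P.prod P).dim : ℤ) - (P.dim : ℤ)) =
          P.dim + (P.dim - X.dim) := by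
        rw [dim_prod]; push_cast; ring
      rwa [e1] at h
    have h2 : C.graph f ∈ C.gr (P.prod X) (P.dim + (X.dim - P.dim)) := by
      have h := C.push_mem (Obj.lift (𝟙 P) f) (C.one_mem P)
      have e1 : (0 : ℤ) + 1 * (((P.prod X).dim : ℤ) - (P.dim : ℤ)) = P.dim + (X.dim - P.dim) := by
        rw [dim_prod]; push_cast; ring
      rwa [e1] at h
    have h3 : C.cograph f ∈ C.gr (X.prod P) (X.dim + 0) := by
      have h := C.push_mem (Obj.lift f (𝟙 P)) (C.one_mem P)
      have e1 : (0 : ℤ) + 1 * (((X.prod P).dim : ℤ) - (P.dim : ℤ)) = X.dim + 0 := by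
        rw [dim_prod]; push_cast; ring
      rwa [e1] at h
    have h4 : π ∈ C.gr (P.prod P) (P.dim + 0) := by
      rw [add_zero]; exact hπ
    have := comp_mem C (comp_mem C h3 h4) (comp_mem C h1 h2)
    have e1 : (X.dim : ℤ) + (0 + 0 + ((P.dim : ℤ) - X.dim + (X.dim - P.dim))) = X.dim := by ring
    rwa [e1] at this
  · intro l a ha
    rw [cl_comp, cl_comp, cl_comp, H.act_comp, H.act_comp, H.act_comp]
    have e1 : H.act (H.cl (C.cograph f)) a = H.pull f a := by
      have : H.cl (C.cograph f) = H.cograph f := by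
        rw [TheoryData.cograph, TheoryData.cograph, H.cl_push, map_one]
      rw [this, H.act_cograph]
    have e2 : ∀ b, H.act (H.cl (C.mulCorr c)) b = H.cl c * b := by
      intro b
      have : H.cl (C.mulCorr c) = H.mulCorr (H.cl c) := by
        rw [TheoryData.mulCorr, TheoryData.mulCorr, H.cl_push]
      rw [this, H.act_mulCorr]
    have e3 : ∀ b, H.act (H.cl (C.graph f)) b = H.push f b := by
      intro b
      have : H.cl (C.graph f) = H.graph f := by
        rw [TheoryData.graph, TheoryData.graph, H.cl_push, map_one]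
      rw [this, H.act_graph]
    rw [e1, e2, e3, hact l _ (H.pull_mem f ha)]
    split_ifs with h2
    · rw [H.proj_right, ← H.cl_push, h1', map_one, one_mul]
    · rw [mul_zero, map_zero]

variable (J) in
/-- The projectors which are phantoms act as zero on the kernel of the Abel-Jacobi map. -/
def Idem (P : 𝒱.Obj) : Prop :=
  ∀ (i : ℕ) (ε : C.A (P.prod P)), C.comp ε ε = ε → IsPhantom H i ε → ∀ x : C.A P, J.Ker i x →
    C.act ε x = 0

include hC hH hJ

lemma ker_act0 {i : ℕ} {Γ : C.A (X.prod X)} (hΓ : C.Deg X.dim Γ) {x : C.A X}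
    (hx : J.Ker i x) : J.Ker i (C.act Γ x) :=
  ker_act (deg_cast (by ring) hΓ) hx

lemma hom_shift0 {i : ℕ} {Γ : C.A (X.prod X)} (hΓ : C.Deg X.dim Γ)
    (hk : Kills H Γ (2 * i - 1)) {x : C.A X} (hx : C.Deg i x) (hcl : H.cl x = 0) :
    J.Ker i (C.act Γ x) :=
  hom_shift (deg_cast (by ring) hΓ) hk ⟨hx, hcl⟩

lemma ker_zero {x : C.A X} (hx : J.Ker 0 x) : x = 0 := hom_zero (J := J) hx.1

/-- Transfer of local nilpotence to dominated varieties. -/
lemma LocNil.dom (hP : LocNil J P) (h : Dominates C P X) : LocNil J X := by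
  obtain ⟨f, c, hc, h1⟩ := h
  have h1' : C.push f c = 1 := h1
  intro i ε hε x hx
  obtain ⟨Γ, hΓ, hact, hk, -⟩ := exists_lift (H := H) f hc hε.1
  have hfx : J.Ker i (C.pull f x) := by
    obtain ⟨Δ, h2, h3, -⟩ := Realised.pull (H := H) f
    rw [← h3 x]
    exact ker_act (deg_cast (by ring) h2) hx
  obtain ⟨n, hn⟩ := hP i Γ ⟨hΓ, fun m h2 h3 => hk m (hε.2 m h2 h3)⟩ (C.pull f x) hfx
  refine ⟨n, ?_⟩
  have h2 : ∀ n, (C.act Γ)^[n] (C.pull f x) = C.pull f ((C.act ε)^[n] x) := by
    intro n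
    induction n with
    | zero => rfl
    | succ n ih =>
      rw [Function.iterate_succ_apply', ih, hact, push_pull_dom h1', Function.iterate_succ_apply']
  rw [h2] at hn
  rw [← push_pull_dom h1' ((C.act ε)^[n] x), hn, mul_zero, map_zero]

/-- A sufficient condition for the nilpotence of homologically trivial self-correspondences. -/
lemma nil_of (h : ∀ (ε : C.A ((X.prod X).prod (X.prod X))), C.Deg (X.prod X).dim ε →
    (∀ m, Kills H ε m) → ∀ x, J.Ker X.dim x → ∃ n : ℕ, (C.act ε)^[n] x = 0) : Nil H X := by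
  rw [nil_iff]
  intro γ hγ hcl
  have hd : tens C (dg C X) γ ∈ C.gr ((X.prod X).prod (X.prod X)) ((X.prod X).dim : ℤ) := by
    have := tens_mem C (dg_mem C X) hγ
    rw [dim_prod]
    push_cast
    exact this
  have hz : H.cl (tens C (dg C X) γ) = 0 := by
    rw [cl_tens, hcl, tens, map_zero, mul_zero]
  have hk : ∀ m, Kills H (tens C (dg C X) γ) m := by
    intro m a _
    rw [hz]
    exact H.act_zero a
  have h1 : ∀ n, (C.act (tens C (dg C X) γ))^[n] γ = (γ ^ (n + 1) : Cor C X) := by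
    intro n
    induction n with
    | zero => rw [zero_add, pow_one]; rfl
    | succ n ih =>
      rw [Function.iterate_succ_apply', ih, act_tens C (ch_comm C), tp_dg]
      have h2 : C.comp (X := X) (Y := X) (Z := X) (dg C X) (γ ^ (n + 1) : Cor C X) =
          (γ ^ (n + 1) : Cor C X) := dg_comp C (X := X) (Y := X) (γ ^ (n + 1) : Cor C X)
      rw [h2]
      exact (pow_succ' γ (n + 1)).symm
  have h2 : J.Ker X.dim (C.act (tens C (dg C X) γ) γ) :=
    hom_shift0 hd (hk _) hγ hcl
  obtain ⟨n, hn⟩ := h (tens C (dg C X) γ) hd hk _ h2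
  refine ⟨n + 1 + 1, ?_⟩
  rw [← Function.iterate_succ_apply] at hn
  exact (h1 (n + 1)).symm.trans hn

lemma LocNil.nil (h : LocNil J (X.prod X)) : Nil H X :=
  nil_of fun ε hε hk x hx => h X.dim ε ⟨hε, fun m _ _ => hk m⟩ x hx

lemma LocNil.idem (h : LocNil J X) : Idem J X := by
  intro i ε hid hε x hx
  obtain ⟨n, hn⟩ := h i ε hε x hx
  rw [← iter_idem (H := H) hid n x, ← Function.iterate_succ_apply, Function.iterate_succ_apply', hn]
  exact TheoryData.act_map_zero C ε

lemma Idem.idemZero (h : Idem J X) : IdemZero H X := by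
  intro i ε hid hε x hx hcl
  rcases Nat.eq_zero_or_pos i with rfl | hi
  · have h1 : x = 0 := hom_zero (J := J) (show x ∈ _root_.Run7.h460.BB.hom H X 0 from ⟨hx, hcl⟩)
    rw [h1, TheoryData.act_map_zero]
  · have h1 : J.Ker i (C.act ε x) :=
      hom_shift0 hε.1 (hε.2 _ (by omega) (by omega)) hx hcl
    have h2 := h i ε hid ⟨hε.1, fun m h2 h3 => hε.2 m h2 (by omega)⟩ _ h1
    rw [← C.act_comp, hid] at h2
    exact h2

/-- `π_(2i-1)` acts as zero on the kernel of the Abel-Jacobi map. -/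
lemma act_pi_ker (h : Idem J X) {π : ℕ → C.A (X.prod X)} (hπ : IsCK H X π) {i j : ℕ}
    (hj : 2 * i - 1 ≤ j) {x : C.A X} (hx : J.Ker i x) : C.act (π j) x = 0 := by
  rcases Nat.eq_zero_or_pos i with rfl | hi
  · rw [ker_zero hx, TheoryData.act_map_zero]
  · exact h i (π j) (hπ.idem j) ⟨hπ.deg j, fun m h2 h3 a ha => hπ.act_ne j m a (by omega) ha⟩ x hx

omit hJ in
/-- Correspondences acting as zero on `H^a(X)` have no component of expected degree. -/
lemma comp_zero_of_kills {π : ℕ → C.A (X.prod X)} {ρ : ℕ → C.A (Z.prod Z)}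
    (hXZ : IdemZero H (X.prod Z)) (hπ : IsCK H X π) (hρ : IsCK H Z ρ) {c a b : ℕ}
    {γ : C.A (X.prod Z)} (hγ : γ ∈ C.gr (X.prod Z) c) (hab : 2 * c + a = 2 * X.dim + b)
    (hk : Kills H γ a) : C.comp (C.comp (π a) γ) (ρ b) = 0 := by
  by_cases ha : a ≤ 2 * X.dim
  · have h0 : ∀ (Y Z : 𝒱.Obj) (c : H.A (Y.prod Z)), H.act c 0 = 0 :=
      fun Y Z c => map_zero (H.actL c)
    have h1 : H.cl (C.comp (C.comp (π a) γ) (ρ b)) = 0 := by
      apply hom_zero_of_act H
      have h1 : H.actL (H.cl (C.comp (C.comp (π a) γ) (ρ b))) = 0 := by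
        apply ext_gr H
        intro m x hx
        rw [TheoryData.actL_apply, actH_comp, actH_comp, hπ.actH_eq a m hx, LinearMap.zero_apply]
        split_ifs with h2
        · subst h2
          have h3 : H.act (H.cl γ) x = 0 := hk x hx
          rw [h3, h0]
        · rw [h0, h0]
      exact fun x => LinearMap.congr_fun h1 x
    have h2 : C.comp (C.comp (π a) γ) (ρ b) ∈ C.gr (X.prod Z) c := by
      have k1 : π a ∈ C.gr (X.prod X) (X.dim + 0) := by rw [add_zero]; exact hπ.deg a
      have k2 : γ ∈ C.gr (X.prod Z) (X.dim + ((c : ℤ) - X.dim)) := by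
        have e1 : (X.dim : ℤ) + ((c : ℤ) - X.dim) = c := by ring
        rw [e1]
        exact hγ
      have k3 : ρ b ∈ C.gr (Z.prod Z) (Z.dim + 0) := by rw [add_zero]; exact hρ.deg b
      have := comp_mem C (comp_mem C k1 k2) k3
      have e1 : (X.dim : ℤ) + (0 + ((c : ℤ) - X.dim) + 0) = c := by ring
      rwa [e1] at this
    have h3 : C.act (prodCK C (dualCK C π) ρ (2 * X.dim - a + b))
        (C.comp (C.comp (π a) γ) (ρ b)) = 0 := by
      apply act_pi_zero hXZ (hπ.dual.prod hρ) (i := c) (Or.inr (by omega)) h2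
      intro _
      exact h1
    have h4 := comp_zero_of_prod hπ hρ ha h3
    rw [comp_assoc, comp_assoc, comp_assoc, hρ.idem, ← comp_assoc, ← comp_assoc, hπ.idem] at h4
    exact h4
  · rw [hπ.out a (by omega), zero_comp, zero_comp]

variable {π : ∀ X : 𝒱.Obj, ℕ → C.A (X.prod X)} {hπ : ∀ X, IsCK H X (π X)}

omit hH hJ in
/-- The codimension of a correspondence as a natural number. -/
lemma exists_codim {j i : ℕ} {Γ : C.A (X.prod Y)} (hΓ : C.Deg (X.dim + i - j) Γ) :
    Γ = 0 ∨ ∃ c : ℕ, c + j = X.dim + i ∧ Γ ∈ C.gr (X.prod Y) c := by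
  by_cases h : (X.dim : ℤ) + i - j < 0
  · left
    have h1 : Γ ∈ C.gr (X.prod Y) ((X.dim : ℤ) + i - j) := hΓ
    rw [C.gr_neg _ _ h] at h1
    exact (Submodule.mem_bot _).1 h1
  · right
    refine ⟨X.dim + i - j, by omega, ?_⟩
    have e1 : (((X.dim + i - j : ℕ)) : ℤ) = (X.dim : ℤ) + i - j := by omega
    rw [e1]
    exact hΓ

/-- The filtration is a Bloch-Beilinson filtration. -/
lemma fil_BB (hX : ∀ X : 𝒱.Obj, Idem J X) : _root_.Run7.h460.BB.IsBB J (fil π hπ) where
  zero := (fil_bounded fun X => (hX X).idemZero).zero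
  one := (fil_bounded fun X => (hX X).idemZero).one
  two X i x := by
    constructor
    · intro h
      rcases Nat.eq_zero_or_pos i with rfl | hi
      · have h1 : x = 0 := by
          rw [mem_fil] at h
          rw [sum_act (hπ X) x]
          exact Finset.sum_eq_zero fun j _ => h.2 j (by omega)
        rw [h1]
        exact (kerS J X 0).zero_mem
      · have h1 : (fil π hπ).Mem i 1 x := (fil π hπ).anti X i 1 h
        have h2 := ((fil_bounded (hπ := hπ) fun X => (hX X).idemZero).one X i x).1 h1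
        rw [mem_fil] at h
        rw [sum_act (hπ X) x]
        apply (kerS J X i).sum_mem
        intro j _
        by_cases hj : 2 * i + 1 - 2 ≤ j
        · rw [h.2 j hj]
          exact (kerS J X i).zero_mem
        · exact hom_shift0 ((hπ X).deg j) (fun a ha => (hπ X).act_ne j _ a (by omega) ha) h2.1 h2.2
    · intro h
      rw [mem_fil]
      exact ⟨h.1.1, fun j hj => act_pi_ker (hX X) (hπ X) (by omega) h⟩
  top := (fil_bounded fun X => (hX X).idemZero).top
  corr X Y j i ν Γ hΓ x hx := by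
    rcases exists_codim hΓ with h | ⟨c, hc, hΓ'⟩
    · rw [h, TheoryData.act_zero]
      exact Submodule.zero_mem _
    · exact fil_corr (fun X => (hX X).idemZero) hΓ' hc hx
  graded X Y j i ν Γ hΓ hk x hx := by
    rcases exists_codim hΓ with h | ⟨c, hc, hΓ'⟩
    · rw [h, TheoryData.act_zero]
      exact Submodule.zero_mem _
    · have h0 := fil_corr (fun X => (hX X).idemZero) hΓ' hc hx
      rw [mem_fil] at hx h0 ⊢
      refine ⟨h0.1, fun b hb => ?_⟩
      rw [sum_act (hπ X) x, act_map_sum, act_map_sum]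
      apply Finset.sum_eq_zero
      intro a _
      by_cases ha : 2 * j + 1 - ν ≤ a
      · rw [hx.2 a ha, TheoryData.act_map_zero, TheoryData.act_map_zero]
      · rw [← C.act_comp, ← C.act_comp, ← comp_assoc]
        by_cases hab : 2 * c + a < 2 * X.dim + b
        · rw [comp_zero_of_B0 (BBN.murreB0 (hX (X.prod Y)).idemZero) (hπ X) (hπ Y) (i := c)
            (j := a) (b := b) hΓ' hab, TheoryData.act_zero]
        · have e1 : (2 * (j : ℤ) - ν) = a := by omega
          rw [e1] at hk
          rw [comp_zero_of_kills (hX _).idemZero (hπ X) (hπ Y) hΓ' (by omega) hk,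
            TheoryData.act_zero]

lemma local_of_BB {F : Filtration C} (hF : _root_.Run7.h460.BB.IsBB J F) (P : 𝒱.Obj) :
    IsLocal J P F :=
  ⟨fun i x => hF.zero P i x, fun i x => hF.one P i x, fun i x => hF.two P i x,
    fun i x hx => hF.top P i x hx,
    fun i n ε hε hk x hx => hF.graded P P i i n ε (deg_cast (by ring) hε) hk x hx⟩

omit hC hH hJ in
lemma IsLocal.toLocal {G : Filtration C} (hG : IsLocal J P G) :
    BBN.IsLocal H P (G.F P) := ⟨G.anti P, hG.zero, hG.one, hG.top, hG.shift⟩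

lemma IsLocal.chainZero {G : Filtration C} (hG : IsLocal J P G) :
    ChainZero J P := by
  intro i γ hγ x hx
  rcases Nat.eq_zero_or_pos i with rfl | hi
  · exact ker_zero hx
  have h1 : ∀ n, n ≤ i - 1 → G.Mem i (n + 2) (chain γ i n x) := by
    intro n
    induction n with
    | zero => exact fun _ => (hG.two i x).2 hx
    | succ n ih =>
      intro hn
      obtain ⟨h1, h2⟩ := hγ (2 * i - 2 - n) (by omega) (by omega)
      have e1 : (((2 * i - 2 - n : ℕ) : ℤ)) = 2 * (i : ℤ) - ((n + 2 : ℕ) : ℤ) := by omega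
      rw [e1] at h2
      exact hG.shift i (n + 2) _ h1 h2 _ (ih (by omega))
  have h2 := h1 (i - 1) le_rfl
  have e1 : i - 1 + 2 = i + 1 := by omega
  rw [e1] at h2
  exact hG.top i _ h2

lemma ChainZero.powZero (h : ChainZero J P) : PowZero J P := by
  intro i ε hε x hx
  rcases Nat.eq_zero_or_pos i with rfl | hi
  · exact ker_zero hx
  have h1 := h i (fun _ => ε) (fun m h1 h2 => ⟨hε.1, hε.2 m (by omega) (by omega)⟩) x hx
  have h2 : ∀ n, chain (fun _ => ε) i n x = (C.act ε)^[n] x := by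
    intro n
    induction n with
    | zero => rfl
    | succ n ih =>
      rw [Function.iterate_succ_apply', ← ih]
      rfl
  rw [← h2, h1]

/-- **The criterion.** -/
theorem criterion (S : Set 𝒱.Obj) (hS : ∀ X : 𝒱.Obj, ∃ P ∈ S, Dominates C P X) :
    [(∀ X, Kunneth H X) ∧ ∃ F : Filtration C, _root_.Run7.h460.BB.IsBB J F,
      ∀ P ∈ S, Kunneth H P ∧ ∃ G : Filtration C, IsLocal J P G,
      ∀ P ∈ S, Kunneth H P ∧ ChainZero J P,
      ∀ P ∈ S, Kunneth H P ∧ PowZero J P,
      ∀ P ∈ S, Kunneth H P ∧ LocNil J P].TFAE ∧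
    ((∀ X, Kunneth H X) → ∀ F : Filtration C, _root_.Run7.h460.BB.IsBB J F →
      ∀ (X : 𝒱.Obj) (G : Filtration C), IsLocal J X G ↔ ∀ i n, G.F X i n = F.F X i n) := by
  refine ⟨?_, ?_⟩
  · tfae_have 1 → 2 := by
      rintro ⟨hK, F, hF⟩ P _
      exact ⟨hK P, F, local_of_BB hF P⟩
    tfae_have 2 → 3 := by
      intro h P hP
      obtain ⟨h1, G, hG⟩ := h P hP
      exact ⟨h1, hG.chainZero⟩
    tfae_have 3 → 4 := fun h P hP => ⟨(h P hP).1, (h P hP).2.powZero⟩
    tfae_have 4 → 5 := fun h P hP => ⟨(h P hP).1, fun i ε hε x hx => ⟨i - 1, (h P hP).2 i ε hε x hx⟩⟩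
    tfae_have 5 → 1 := by
      intro h
      have h1 : ∀ X, Kunneth H X ∧ LocNil J X := by
        intro X
        obtain ⟨P, hP, hd⟩ := hS X
        exact ⟨(h P hP).1.dom hd, (h P hP).2.dom hd⟩
      have hK : KunnethConjecture H := fun X => (h1 X).1
      choose π hπ using fun X : 𝒱.Obj => exists_CK hK (h1 (X.prod X)).2.nil
      exact ⟨fun X => (h1 X).1, fil π hπ, fil_BB (fun X => (h1 X).2.idem)⟩
    tfae_finish
  · intro hK F hF X G
    have hK' : KunnethConjecture H := hK
    constructor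
    · intro hG i n
      have h1 : ∀ P, LocNil J P := fun P i ε hε x hx =>
        ⟨i - 1, (local_of_BB hF P).chainZero.powZero i ε hε x hx⟩
      obtain ⟨π, hπ⟩ := exists_CK hK' (h1 (X.prod X)).nil
      rw [hG.toLocal.eq_ckFil hπ, (local_of_BB hF X).toLocal.eq_ckFil hπ]
    · intro h
      have h1 : ∀ i n x, G.Mem i n x ↔ F.Mem (X := X) i n x := by
        intro i n x
        change x ∈ G.F X i n ↔ x ∈ F.F X i n
        rw [h]
      have h2 := local_of_BB hF X
      refine ⟨fun i x => ?_, fun i x => ?_, fun i x => ?_, fun i x => ?_, fun i n ε hε hk x => ?_⟩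
      · rw [h1]
        exact h2.zero i x
      · rw [h1]
        exact h2.one i x
      · rw [h1]
        exact h2.two i x
      · rw [h1]
        exact h2.top i x
      · rw [h1, h1]
        exact h2.shift i n ε hε hk x

end Pool.Agent.Run7.h570.AJ
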