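import Pool.Agent.Run7.h570.AJ.LefDefs
import Pool.Agent.Run7.h570.AJ.Main
import Pool.Agent.Run7.h570.BBN.LefK

set_option autoImplicit false
set_option linter.unusedSectionVars false

/-!
# Filtrations with the Abel-Jacobi kernel in the second step, under the Lefschetz conjecture
-/

open CategoryTheory AlgebraicGeometry

universe v

namespace Pool.Agent.Run7.h570.AJ

open Pool.Agent.H914 Pool.Agent.H914.VarClass Pool.Agent.H914.VarClass.Obj
open Pool.Agent.W492.BB hiding IsBB
open Pool.Agent.W550.Corr Pool.Agent.TH133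
open _root_.Run7.h460.BB (AJData IsAJ HomTriv ker_act hom_shift hom_zero kerS deg_cast)
open Pool.Agent.Run7.h570.BBN (Dominates exists_lift exists_lift2 push_pull_dom Nil IdemZero
  IdemZeroBelow exists_CK nil_iff act_iter comp_iter iter_idem pow_mem_gr Tri tri_of_below
  act_pi_zero_of_lef exists_T)

variable {𝒱 : VarClass ℂ} {C : TheoryData.{0, v, 0} 𝒱 ℚ} {H : WeilTheoryData.{0, v, 0} C ℚ}
  [hC : IsChowProj C] [hH : IsWeilProj H] {J : AJData H} [hJ : IsAJ J] {X Y Z P : 𝒱.Obj}

variable (J) in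
/-- The projectors acting as zero on `H^m`, `m < 2 i - 1`, act as zero on the kernel of the
Abel-Jacobi map. -/
def IdemBelow (P : 𝒱.Obj) : Prop :=
  ∀ (i : ℕ) (ε : C.A (P.prod P)), C.comp ε ε = ε → KillsBelow H i ε → ∀ x : C.A P, J.Ker i x →
    C.act ε x = 0

include hC hH

lemma PolDominates.dom (hX : X.dim ≤ P.dim) (h : PolDominates C P X) : Dominates C P X := by
  obtain ⟨f, h, q, hh, hq, h1⟩ := h
  refine ⟨f, q⁻¹ • h ^ (P.dim - X.dim), ?_, ?_⟩
  · have h2 := Submodule.smul_mem _ q⁻¹ (pow_mem_gr (C := C) hh (P.dim - X.dim))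
    have e1 : ((P.dim - X.dim : ℕ) : ℤ) = (P.dim : ℤ) - X.dim := by omega
    rw [e1] at h2
    exact h2
  · have h2 : C.push f (h ^ (P.dim - X.dim)) = q • (1 : C.A X) := h1
    change C.push f (q⁻¹ • h ^ (P.dim - X.dim)) = 1
    rw [map_smul, h2, smul_smul, inv_mul_cancel₀ hq, one_smul]

include hJ

/-- A separated local filtration is a local filtration. -/
lemma IsLocalSep.isLocal (hB : BBN.LefschetzB H P) {F : Filtration C}
    (hG : IsLocalSep J P F) : IsLocal J P F := by
  have h1 : BBN.IsLocalSep H P (F.F P) := ⟨F.anti P, hG.zero, hG.one, hG.sep, hG.shift⟩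
  have h2 := h1.isLocal hB
  exact ⟨hG.zero, hG.one, hG.two, h2.top, hG.shift⟩

/-- Transfer of local nilpotence to dominated varieties. -/
lemma LocNilBelow.dom (hP : LocNilBelow J P) (h : Dominates C P X) : LocNilBelow J X := by
  obtain ⟨f, c, hc, h1⟩ := h
  have h1' : C.push f c = 1 := h1
  intro i ε hε x hx
  obtain ⟨Γ, hΓ, hact, hk, -⟩ := exists_lift (H := H) f hc hε.1
  have hfx : J.Ker i (C.pull f x) := by
    obtain ⟨Δ, h2, h3, -⟩ := Realised.pull (H := H) f
    rw [← h3 x]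
    exact ker_act (deg_cast (by ring) h2) hx
  obtain ⟨n, hn⟩ := hP i Γ ⟨hΓ, fun m h2 => hk m (hε.2 m h2)⟩ (C.pull f x) hfx
  refine ⟨n, ?_⟩
  have h2 : ∀ n, (C.act Γ)^[n] (C.pull f x) = C.pull f ((C.act ε)^[n] x) := by
    intro n
    induction n with
    | zero => rfl
    | succ n ih =>
      rw [Function.iterate_succ_apply', ih, hact, push_pull_dom h1', Function.iterate_succ_apply']
  rw [h2] at hn
  rw [← push_pull_dom h1' ((C.act ε)^[n] x), hn, mul_zero, map_zero]

/-- Transfer of the nilpotence in the middle codimension. -/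
lemma LocNilMid.dom (hP : LocNilMid J P) {n : ℕ} (hn : P.dim = 2 * n) (hXn : X.dim ≤ n)
    (h : PolDominates C P X) : LocNilBelow J X := by
  obtain ⟨f, h, q, hh, hq, h1⟩ := h
  intro i ε hε x hx
  by_cases hi : i ≤ X.dim
  · have hc' : C.Deg ((n - i : ℕ) : ℤ) (h ^ (n - i)) := pow_mem_gr hh _
    have hc'' : C.Deg ((n + i - X.dim : ℕ) : ℤ) (q⁻¹ • h ^ (n + i - X.dim)) :=
      Submodule.smul_mem _ _ (pow_mem_gr hh _)
    obtain ⟨Γ, hΓ, hact, hΓe⟩ := exists_lift2 f hc' hc'' (by omega) hε.1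
    have hinv : ∀ y, C.push f ((q⁻¹ • h ^ (n + i - X.dim)) * (h ^ (n - i) * C.pull f y)) = y := by
      intro y
      rw [← mul_assoc, smul_mul_assoc, ← pow_add, smul_mul_assoc, map_smul, C.proj_right]
      have e1 : n + i - X.dim + (n - i) = P.dim - X.dim := by omega
      rw [e1]
      have h2 : C.push f (h ^ (P.dim - X.dim)) = q • (1 : C.A X) := h1
      rw [h2, smul_mul_assoc, one_mul, smul_smul, inv_mul_cancel₀ hq, one_smul]
    have hk : KillsBelow H n Γ := by
      refine ⟨hΓ, fun m hm a ha => ?_⟩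
      rw [hΓe, cl_comp, cl_comp, cl_comp, cl_comp, H.act_comp, H.act_comp, H.act_comp, H.act_comp]
      have h1 : ∀ c : C.A P, H.act (H.cl (C.mulCorr c)) a = H.cl c * a := by
        intro c
        have : H.cl (C.mulCorr c) = H.mulCorr (H.cl c) := by
          rw [TheoryData.mulCorr, TheoryData.mulCorr, H.cl_push]
        rw [this, H.act_mulCorr]
      have h2 : ∀ b, H.act (H.cl (C.graph f)) b = H.push f b := by
        intro b
        have : H.cl (C.graph f) = H.graph f := by
          rw [TheoryData.graph, TheoryData.graph, H.cl_push, map_one]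
        rw [this, H.act_graph]
      rw [h1, h2]
      have h3 : H.push f (H.cl (q⁻¹ • h ^ (n + i - X.dim)) * a) ∈ H.gr X (m + 2 * i - 2 * n) := by
        have h4 := H.push_mem f (H.mul_mem (H.cl_mem hc'') ha)
        have e1 : 2 * ((n + i - X.dim : ℕ) : ℤ) + m + 2 * ((X.dim : ℤ) - P.dim) =
            m + 2 * i - 2 * n := by omega
        rwa [e1] at h4
      have h5 : H.act (H.cl ε) (H.push f (H.cl (q⁻¹ • h ^ (n + i - X.dim)) * a)) = 0 :=
        hε.2 _ (by omega) _ h3
      rw [h5]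
      have h6 : ∀ (Y Z : 𝒱.Obj) (c : H.A (Y.prod Z)), H.act c 0 = 0 :=
        fun Y Z c => map_zero (H.actL c)
      rw [h6, h6]
    have hx' : J.Ker n (h ^ (n - i) * C.pull f x) := by
      obtain ⟨Δ, h2, h3, -⟩ := (Realised.pull (H := H) f).comp (Realised.mul (H := H) hc')
      have h4 : h ^ (n - i) * C.pull f x = C.act Δ x := (h3 x).symm
      rw [h4]
      refine ker_act (deg_cast ?_ h2) hx
      have e1 : ((n - i : ℕ) : ℤ) = (n : ℤ) - i := by omega
      rw [e1]
      ring
    obtain ⟨N, hN⟩ := hP n hn Γ hk (h ^ (n - i) * C.pull f x) hx'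
    refine ⟨N, ?_⟩
    have h2 : ∀ N, (C.act Γ)^[N] (h ^ (n - i) * C.pull f x) =
        h ^ (n - i) * C.pull f ((C.act ε)^[N] x) := by
      intro N
      induction N with
      | zero => rfl
      | succ N ih =>
        rw [Function.iterate_succ_apply', ih, hact, hinv, Function.iterate_succ_apply']
    rw [h2] at hN
    rw [← hinv ((C.act ε)^[N] x), hN, mul_zero, map_zero]
  · have h1 : x = 0 := hC.gr_top X i x hx.1.1 (by omega)
    exact ⟨0, h1⟩

lemma LocNilBelow.nil (h : LocNilBelow J (X.prod X)) : Nil H X :=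
  nil_of fun ε hε hk x hx => h X.dim ε ⟨hε, fun m _ => hk m⟩ x hx

lemma LocNilBelow.idem (h : LocNilBelow J X) : IdemBelow J X := by
  intro i ε hid hε x hx
  obtain ⟨n, hn⟩ := h i ε hε x hx
  rw [← iter_idem (H := H) hid n x, ← Function.iterate_succ_apply, Function.iterate_succ_apply', hn]
  exact TheoryData.act_map_zero C ε

lemma IdemBelow.idemZero (h : IdemBelow J X) : IdemZeroBelow H X := by
  intro i ε hid hε x hx hcl
  have h1 : J.Ker i (C.act ε x) :=
    hom_shift0 hε.1 (hε.2 _ (by omega)) hx hcl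
  have h2 := h i ε hid ⟨hε.1, fun m h2 => hε.2 m (by omega)⟩ _ h1
  rw [← C.act_comp, hid] at h2
  exact h2

/-- `π_(2i-1)` acts as zero on the kernel of the Abel-Jacobi map. -/
lemma act_pi_ker_below (h : IdemBelow J X) {π : ℕ → C.A (X.prod X)} (hπ : IsCK H X π) {i j : ℕ}
    (hj : 2 * i - 1 ≤ j) {x : C.A X} (hx : J.Ker i x) : C.act (π j) x = 0 := by
  exact h i (π j) (hπ.idem j) ⟨hπ.deg j, fun m h2 a ha => hπ.act_ne j m a (by omega) ha⟩ x hx

/-- Triangularity implies the vanishing of powers of phantoms. -/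
lemma powZero_of_tri {π : ℕ → C.A (P.prod P)} (hπ : IsCK H P π) (hT : Tri H π)
    (hlow : ∀ (i m : ℕ) (x : C.A P), x ∈ C.gr P i → m < i → C.act (π m) x = 0)
    (hker : ∀ (i j : ℕ), 2 * i - 1 ≤ j → ∀ x : C.A P, J.Ker i x → C.act (π j) x = 0) :
    PowZero J P := by
  intro i ε hε x hx
  rcases Nat.eq_zero_or_pos i with rfl | hi
  · exact ker_zero hx
  have hmem : ∀ n, (C.act ε)^[n] x ∈ C.gr P i := by
    intro n
    induction n with
    | zero => exact hx.1.1
    | succ n ih =>
      rw [Function.iterate_succ_apply']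
      exact act_mem0 C hε.1 ih
  have hsum : ∀ y : C.A P, y = ∑ j ∈ Finset.range (2 * P.dim + 1), C.act (π j) y := by
    intro y
    rw [← act_sum, hπ.sum, act_dg]
  have key : ∀ n, n ≤ i - 1 → ∀ b, 2 * i - 1 - n ≤ b → C.act (π b) ((C.act ε)^[n] x) = 0 := by
    intro n
    induction n with
    | zero =>
      intro _ b hb
      exact hker i b (by omega) x hx
    | succ n ih =>
      intro hn b hb
      rw [Function.iterate_succ_apply', hsum ((C.act ε)^[n] x), act_map_sum, act_map_sum]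
      apply Finset.sum_eq_zero
      intro a _
      by_cases ha : 2 * i - 1 - n ≤ a
      · rw [ih (by omega) a ha, TheoryData.act_map_zero, TheoryData.act_map_zero]
      · rw [← C.act_comp, ← C.act_comp, ← comp_assoc]
        by_cases hab : a < b
        · rw [hT.up a b ε hε.1 hab, TheoryData.act_zero]
        · obtain rfl : b = a := by omega
          rw [hT.diag b ε hε.1 (hε.2 b (by omega) (by omega)), TheoryData.act_zero]
  rw [hsum ((C.act ε)^[i - 1] x)]
  apply Finset.sum_eq_zero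
  intro b _
  by_cases hb : b < i
  · exact hlow i b _ (hmem _) hb
  · exact key (i - 1) le_rfl b (by omega)

/-- **The criteria under the Lefschetz standard conjecture.** -/
theorem criterionB (S : Set 𝒱.Obj) (hS : ∀ X : 𝒱.Obj, ∃ P ∈ S, Dominates C P X)
    (hB : ∀ P ∈ S, LefschetzB H P) (S' : Set 𝒱.Obj)
    (hS' : ∀ X : 𝒱.Obj, ∃ P ∈ S', ∃ n : ℕ, P.dim = 2 * n ∧ X.dim ≤ n ∧ PolDominates C P X) :
    [∃ F : Filtration C, _root_.Run7.h460.BB.IsBB J F,
      ∀ P ∈ S, ∃ G : Filtration C, IsLocalSep J P G,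
      ∀ P ∈ S, LocNilBelow J P,
      ∀ P ∈ S', LocNilMid J P].TFAE := by
  have hB' : ∀ P ∈ S, BBN.LefschetzB H P := hB
  have hK : KunnethConjecture H := BBN.kunneth_of_lef hS hB'
  have hcrit := (criterion (J := J) S hS).1
  have hand : ∀ A : 𝒱.Obj → Prop, (∀ P ∈ S, Kunneth H P ∧ A P) ↔ ∀ P ∈ S, A P := by
    intro A
    exact ⟨fun h P hP => (h P hP).2, fun h P hP => ⟨hK P, h P hP⟩⟩
  have hKX : (∀ X : 𝒱.Obj, Kunneth H X) ↔ True := ⟨fun _ => trivial, fun _ => hK⟩
  simp only [hand, hKX, true_and] at hcrit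
  have e1 : (∃ F : Filtration C, _root_.Run7.h460.BB.IsBB J F) ↔
      ∀ P ∈ S, ∃ G : Filtration C, IsLocal J P G := hcrit.out 0 1
  have e3 : (∃ F : Filtration C, _root_.Run7.h460.BB.IsBB J F) ↔
      ∀ P ∈ S, PowZero J P := hcrit.out 0 3
  have e4 : (∃ F : Filtration C, _root_.Run7.h460.BB.IsBB J F) ↔
      ∀ P ∈ S, LocNil J P := hcrit.out 0 4
  have hall : (∀ P ∈ S, LocNilBelow J P) → ∀ X, LocNilBelow J X := by
    intro h X
    obtain ⟨P, hP, hd⟩ := hS X
    exact (h P hP).dom hd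
  tfae_have 1 → 2 := by
    intro h P hP
    obtain ⟨G, hG⟩ := e1.1 h P hP
    exact ⟨G, hG.zero, hG.one, hG.two, fun i x hx => hG.top i x (hx _), hG.shift⟩
  tfae_have 2 → 1 := by
    intro h
    apply e1.2
    intro P hP
    obtain ⟨G, hG⟩ := h P hP
    exact ⟨G, hG.isLocal (hB' P hP)⟩
  tfae_have 1 → 3 := fun h P hP i ε hε x hx => e4.1 h P hP i ε ⟨hε.1, fun m _ hm => hε.2 m (by omega)⟩ x hx
  tfae_have 3 → 4 := fun h P _ i _ ε hε x hx => hall h P i ε hε x hx
  tfae_have 4 → 3 := by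
    intro h X _
    obtain ⟨P, hP, n, hn, hXn, hd⟩ := hS' X
    exact (h P hP).dom hn hXn hd
  tfae_have 3 → 1 := by
    intro h
    have h1 := hall h
    apply e3.2
    intro P hP
    have hnil : Nil H P := (h1 (P.prod P)).nil
    obtain ⟨π, hπ⟩ := exists_CK hK hnil
    have hT := tri_of_below (h1 (P.prod P)).idem.idemZero hπ
    exact powZero_of_tri hπ hT
      (fun i m x hx hm => act_pi_zero_of_lef (hB' P hP) hnil hπ hm hx)
      (fun i j hj x hx => act_pi_ker_below (h1 P).idem hπ hj hx)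
  tfae_finish

end Pool.Agent.Run7.h570.AJ
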