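import Pool.Agent.TH133.Defs
import Pool.Agent.Run7.h460.BB.Defs

set_option autoImplicit false

/-!
# Filtrations with the Abel-Jacobi kernel in the second step, under the Lefschetz conjecture
-/

open CategoryTheory AlgebraicGeometry

universe v

namespace Pool.Agent.Run7.h570.AJ

open Pool.Agent.H914 Pool.Agent.H914.VarClass Pool.Agent.H914.VarClass.Obj
open Pool.Agent.W492.BB hiding IsBB
open _root_.Run7.h460.BB (AJData HomTriv)

variable {𝒱 : VarClass ℂ}

/-- `P` dominates `X` by a morphism `f` such that `f_* h^(dim P - dim X)` is a nonzero multiple of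
`[X]` for some divisor class `h` on `P`. For smooth projective varieties this means that `f` is
surjective (`h` ample). -/
def PolDominates (C : TheoryData.{0, v, 0} 𝒱 ℚ) (P X : 𝒱.Obj) : Prop :=
  ∃ (f : P ⟶ X) (h : C.A P) (q : ℚ), C.Deg 1 h ∧ q ≠ 0 ∧
    C.down f (h ^ (P.dim - X.dim)) = q • (1 : C.A X)

variable {C : TheoryData.{0, v, 0} 𝒱 ℚ} {H : WeilTheoryData.{0, v, 0} C ℚ} (J : AJData H)

variable (H) in
/-- The Lefschetz standard conjecture (type B) for `X`: for some divisor class `D` (for example an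
ample one) and all `m < d = dim X` some correspondence `Λ` of degree `m - d` is a left inverse of
`D^(d-m) : H^m(X) → H^(2d-m)(X)`. -/
def LefschetzB (X : 𝒱.Obj) : Prop :=
  ∃ D : C.A X, C.Deg 1 D ∧ ∀ m : ℕ, m < X.dim → ∃ Λ : C.A (X.prod X), C.Deg m Λ ∧
    ∀ a : H.A X, H.Deg m a → H.act (H.cl Λ) (H.mul (H.cl (D ^ (X.dim - m))) a) = a

/-- The filtration of the Chow groups of the single variety `P` has the property 1 of a
Bloch-Beilinson filtration, it is separated, and every self-correspondence `ε` of degree zero of `P`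
acting as zero on `H^(2i-n)(P)` maps `F^n CH^i(P)` to `F^(n+1) CH^i(P)`. -/
structure IsLocalSep (P : 𝒱.Obj) (F : Filtration C) : Prop where
  zero : ∀ (i : ℕ) (x : C.A P), F.Mem i 0 x ↔ C.Deg i x
  one : ∀ (i : ℕ) (x : C.A P), F.Mem i 1 x ↔ HomTriv H i x
  two : ∀ (i : ℕ) (x : C.A P), F.Mem i 2 x ↔ J.Ker i x
  sep : ∀ (i : ℕ) (x : C.A P), (∀ n, F.Mem i n x) → x = 0
  shift : ∀ (i n : ℕ) (ε : C.A (P.prod P)), C.Deg P.dim ε → Kills H ε (2 * i - n) →
    ∀ x, F.Mem i n x → F.Mem i (n + 1) (C.act ε x)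

variable (H) in
/-- The self-correspondence `ε` of degree zero of `P` acts as zero on `H^m(P)` for all
`m < 2 i - 1`. -/
def KillsBelow {P : 𝒱.Obj} (i : ℕ) (ε : C.A (P.prod P)) : Prop :=
  C.Deg P.dim ε ∧ ∀ m : ℤ, m < 2 * i - 1 → Kills H ε m

/-- The single self-correspondences of degree zero of `P` which act as zero on `H^m(P)`,
`m < 2 i - 1`, are locally nilpotent on the kernel of the Abel-Jacobi map in codimension `i`. -/
def LocNilBelow (P : 𝒱.Obj) : Prop :=
  ∀ (i : ℕ) (ε : C.A (P.prod P)), KillsBelow H i ε → ∀ x : C.A P, J.Ker i x →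
    ∃ n : ℕ, (C.act ε)^[n] x = 0

/-- The same for the middle codimension only: `dim P = 2 i`. -/
def LocNilMid (P : 𝒱.Obj) : Prop :=
  ∀ (i : ℕ), P.dim = 2 * i → ∀ (ε : C.A (P.prod P)), KillsBelow H i ε → ∀ x : C.A P,
    J.Ker i x → ∃ n : ℕ, (C.act ε)^[n] x = 0

end Pool.Agent.Run7.h570.AJ
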